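import Pool.Agent.X169.NM.Conv

/-!
# Asymptotically linear homeomorphisms of closed 4-manifolds are approximable by diffeomorphisms

Let `g : M → N` be a homeomorphism of closed smooth 4-manifolds. Suppose that near every point, in
smooth charts, `g` is within a relative error `ε` of invertible linear maps at all scales below
some `r₀(ε)`, where the linear maps may depend on the point and on the scale in an arbitrary way
and only have locally bounded condition numbers. Then every neighbourhood of the graph of `g`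
contains the graph of a diffeomorphism from `M` to `N`. In particular `M` and `N` are
diffeomorphic.
-/

set_option autoImplicit false

open Set Filter Topology Metric Function
open scoped Manifold ContDiff

namespace Pool.Agent.Results.MP_cb9bff_gt.AsymptoticallyLinearHomeos

/-- `ℝ⁴` -/
abbrev R4 : Type := EuclideanSpace ℝ (Fin 4)

/-- `f : ℝ⁴ → ℝ⁴` is nearly linear at the points of norm at most `r₁` and at all scales up to `r₀`,
with error `ε` and condition numbers at most `K`: for all these points `p` and scales `r` there is a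
linear map `T` that stretches by factors between some `l > 0` and `K * l` with
`f q = f p + T (q - p)` up to an error at most `ε * l * r` for `|q - p| ≤ r`. -/
def NearlyLinear (f : R4 → R4) (ε K r₁ r₀ : ℝ) : Prop :=
  ∀ p : R4, ‖p‖ ≤ r₁ → ∀ r : ℝ, 0 < r → r ≤ r₀ → ∃ (T : R4 →L[ℝ] R4) (l : ℝ), 0 < l ∧
    (∀ v, l * ‖v‖ ≤ ‖T v‖ ∧ ‖T v‖ ≤ K * (l * ‖v‖)) ∧
    ∀ q, ‖q - p‖ ≤ r → ‖f q - f p - T (q - p)‖ ≤ ε * l * r

/-- `g` is asymptotically linear at `x`: for a parametrization `A` of a neighbourhood of `x` and a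
chart `ψ` of the target at `g x` and for some `K` and `r > 0` the map `ψ ∘ g ∘ A` is, for every
error `ε > 0`, nearly linear with error `ε` and condition numbers at most `K` at the points of norm
at most `r` and all small enough scales. -/
def AsymptoticallyLinearAt {M N : Type} [TopologicalSpace M] [ChartedSpace R4 M]
    [TopologicalSpace N] [ChartedSpace R4 N] (g : M → N) (x : M) : Prop :=
  ∃ (A : R4 → M) (ψ : N → R4) (K r : ℝ), A 0 = x ∧
    IsLocalDiffeomorphAt (𝓡 4) (𝓡 4) ∞ A 0 ∧ IsLocalDiffeomorphAt (𝓡 4) (𝓡 4) ∞ ψ (g x) ∧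
    0 < r ∧ ∀ ε : ℝ, 0 < ε → ∃ r₀ : ℝ, 0 < r₀ ∧ NearlyLinear (fun z => ψ (g (A z))) ε K r r₀

theorem result (M N : Type) [TopologicalSpace M] [ChartedSpace R4 M] [IsManifold (𝓡 4) ∞ M]
    [TopologicalSpace N] [T2Space N] [CompactSpace N] [ChartedSpace R4 N] [IsManifold (𝓡 4) ∞ N]
    (g : M ≃ₜ N) (hg : ∀ x, AsymptoticallyLinearAt g x)
    (W : Set (M × N)) (hW : IsOpen W) (hgW : ∀ x, (x, g x) ∈ W) :
    ∃ D : Diffeomorph (𝓡 4) (𝓡 4) M N ∞, ∀ x, (x, D x) ∈ W :=
  Pool.Agent.X169.NM.asym_charts (n := 4) (by norm_num) g hg W hW hgW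

end Pool.Agent.Results.MP_cb9bff_gt.AsymptoticallyLinearHomeos
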