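import Mathlib
import Pool.Agent.X312.FF.Count
import Pool.Agent.X312.FF.Forms

/-!
# The density of the realised even forms

Which of the forms `E(k, q) = 2k E_8 + q H` are intersection forms of closed, simply connected,
smooth 4-manifolds?  (By the theorems of Rokhlin and Donaldson and the classification of indefinite
unimodular forms these are, up to the orientation, all the candidates among the even forms, except
the definite ones, which are not realised.)

We prove that the proportion of the realised forms among the candidates of rank at most `N` always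
has a limit `8 / (8 + α)`, where `α = lim g(k) / k` and `g(k)` is the least `q` such that `E(k, q)`
is realised; the limit lies between `8/11` and `4/5`, and the 11/8-conjecture (`q ≥ 3 k` for the
realised forms) holds if and only if the proportion tends to `8/11`.
-/

set_option autoImplicit false

namespace Pool.Agent.Results.MP_cb9bff_gt.DensityOfEvenForms

open Pool.Agent.X312.FF Matrix Filter Topology

noncomputable section

/-- The closed, simply connected, oriented smooth 4-manifolds: `M` is the class of these manifolds,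
`b X` is the second Betti number of `X` and `Q X` the Gram matrix of the intersection form on
`H²(X, ℤ)` in some basis. The fields record known theorems. -/
structure Smooth4 where
  M : Type
  b : M → ℕ
  Q : ∀ X : M, Matrix (Fin (b X)) (Fin (b X)) ℤ
  /-- the sphere `S⁴` -/
  sphere : ∃ X : M, b X = 0
  /-- `S² × S²` -/
  prod : ∃ X : M, Iso (Q X) Hyp
  /-- the K3 surface with the orientation opposite to the complex one: the form is `2 E_8 + 3 H` -/
  k3 : ∃ X : M, Iso (Q X) (Ev (Fin 2) (Fin 3))
  /-- connected sums -/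
  csum : ∀ X Y : M, ∃ Z : M, Iso (Q Z) (fromBlocks (Q X) 0 0 (Q Y))
  /-- Furuta's 10/8-theorem: if the form of `X` is `2 k E_8 + q H` and `k ≥ 1`,
  then `q ≥ 2 k + 1` -/
  furuta : ∀ (X : M) (k q : ℕ), 1 ≤ k → Iso (Q X) (Ev (Fin (2 * k)) (Fin q)) → 2 * k + 1 ≤ q

variable (T : Smooth4)

/-- The form `2 k E_8 + q H` is realised. -/
def Realised (k q : ℕ) : Prop := ∃ X : T.M, Iso (T.Q X) (Ev (Fin (2 * k)) (Fin q))

/-- The candidates: `2 k E_8 + q H` is indefinite or zero. -/
def Candidate (k q : ℕ) : Prop := k = 0 ∨ 1 ≤ q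

/-- The least `q` such that `2 k E_8 + q H` is realised. -/
def g (k : ℕ) : ℕ := sInf {q | Realised T k q}

/-- The proportion of the realised forms `2 k E_8 + q H` among the candidates of rank
`16 k + 2 q ≤ N`. -/
def proportion (N : ℕ) : ℝ := (cnt (Realised T) N : ℝ) / cnt Candidate N

/-- The 11/8-conjecture. -/
def ElevenEighths : Prop := ∀ k q : ℕ, Realised T k q → 3 * k ≤ q

variable {T}

theorem Realised.add {k q k' q' : ℕ} (h : Realised T k q) (h' : Realised T k' q') :
    Realised T (k + k') (q + q') := by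
  obtain ⟨X, hX⟩ := h
  obtain ⟨Y, hY⟩ := h'
  obtain ⟨Z, hZ⟩ := T.csum X Y
  refine ⟨Z, (hZ.trans (hX.sum hY)).trans (Ev_sum.trans (Ev_congr ?_ finSumFinEquiv))⟩
  exact finSumFinEquiv.trans (finCongr (by ring))

theorem realised_zero : Realised T 0 0 := by
  obtain ⟨X, hX⟩ := T.sphere
  exact ⟨X, zero_iso hX _⟩

theorem realised_hyp : Realised T 0 1 := by
  obtain ⟨X, hX⟩ := T.prod
  exact ⟨X, hX.trans Hyp_iso⟩

theorem realised_k3 : Realised T 1 3 := by
  obtain ⟨X, hX⟩ := T.k3
  exact ⟨X, hX⟩

theorem realised_smul {k q : ℕ} (h : Realised T k q) (n : ℕ) : Realised T (n * k) (n * q) := by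
  induction n with
  | zero => simpa using realised_zero
  | succ n ih =>
    have := ih.add h
    rwa [← Nat.succ_mul, ← Nat.succ_mul] at this

theorem realised_up {k q q' : ℕ} (h : Realised T k q) (hq : q ≤ q') : Realised T k q' := by
  have := h.add (realised_smul realised_hyp (q' - q))
  rw [mul_zero, mul_one, add_zero] at this
  rwa [Nat.add_sub_cancel' hq] at this

theorem realised_three (k : ℕ) : Realised T k (3 * k) := by
  have := realised_smul (T := T) realised_k3 k
  rwa [mul_one, mul_comm k 3] at this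

theorem realised_g (k : ℕ) : Realised T k (g T k) :=
  Nat.sInf_mem (s := {q | Realised T k q}) ⟨3 * k, realised_three k⟩

theorem realised_iff {k q : ℕ} : Realised T k q ↔ g T k ≤ q :=
  ⟨fun h => Nat.sInf_le h, fun h => realised_up (realised_g k) h⟩

theorem g_le (k : ℕ) : g T k ≤ 3 * k := realised_iff.1 (realised_three k)

theorem g_zero : g T 0 = 0 := Nat.le_zero.1 (realised_iff.1 realised_zero)

theorem le_g (k : ℕ) : 2 * k ≤ g T k := by
  rcases Nat.eq_zero_or_pos k with rfl | hk
  · simp
  · obtain ⟨X, hX⟩ := realised_g (T := T) k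
    have := T.furuta X k _ hk hX
    omega

theorem g_add (j k : ℕ) : g T (j + k) ≤ g T j + g T k :=
  realised_iff.1 ((realised_g j).add (realised_g k))

variable (T)

theorem subadd : Subadditive (fun k => (g T k : ℝ)) := by
  intro j k
  show (g T (j + k) : ℝ) ≤ g T j + g T k
  exact_mod_cast g_add j k

/-- The limit `α` of `g(k) / k`. -/
def α : ℝ := (subadd T).lim

theorem bdd : BddBelow (Set.range fun n : ℕ => (g T n : ℝ) / n) :=
  ⟨0, by rintro _ ⟨n, rfl⟩; positivity⟩

theorem tendsto_α : Tendsto (fun k : ℕ => (g T k : ℝ) / k) atTop (𝓝 (α T)) :=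
  (subadd T).tendsto_lim (bdd T)

theorem α_le (k : ℕ) (hk : 1 ≤ k) : α T * k ≤ g T k := by
  have h := (subadd T).lim_le_div (bdd T) (n := k) (by omega)
  have hk0 : (0 : ℝ) < k := by exact_mod_cast hk
  rwa [le_div_iff₀ hk0] at h

theorem two_le_α : 2 ≤ α T := by
  refine ge_of_tendsto (tendsto_α T) ?_
  filter_upwards [eventually_ge_atTop 1] with k hk
  have hk0 : (0 : ℝ) < k := by exact_mod_cast hk
  rw [le_div_iff₀ hk0]
  exact_mod_cast le_g k

theorem α_le_three : α T ≤ 3 := by
  have h1 := α_le T 1 le_rfl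
  have h2 : (g T 1 : ℝ) ≤ 3 := by exact_mod_cast g_le 1
  norm_num at h1
  linarith

theorem eleven_iff : ElevenEighths T ↔ α T = 3 := by
  constructor
  · intro h
    refine le_antisymm (α_le_three T) ?_
    refine ge_of_tendsto (tendsto_α T) ?_
    filter_upwards [eventually_ge_atTop 1] with k hk
    have hk0 : (0 : ℝ) < k := by exact_mod_cast hk
    rw [le_div_iff₀ hk0]
    exact_mod_cast h k _ (realised_g k)
  · intro h k q hkq
    rcases Nat.eq_zero_or_pos k with rfl | hk
    · simp
    · have h1 := α_le T k hk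
      rw [h] at h1
      have h2 : 3 * k ≤ g T k := by exact_mod_cast h1
      exact h2.trans (realised_iff.1 hkq)

theorem realised_eq : Realised T = fun k q => g T k ≤ q := by
  funext k q
  exact propext realised_iff

theorem candidate_eq : Candidate = fun k q => (fun k : ℕ => if k = 0 then 0 else 1) k ≤ q := by
  funext k q
  unfold Candidate
  apply propext
  rcases Nat.eq_zero_or_pos k with rfl | hk
  · simp
  · have : k ≠ 0 := by omega
    simp [this]

theorem tendsto_candidate :
    Tendsto (fun N : ℕ => (cnt Candidate N : ℝ) / (N : ℝ) ^ 2) atTop (𝓝 (1 / 64)) := by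
  have h : Tendsto (fun k : ℕ => (((fun k : ℕ => if k = 0 then 0 else 1) k : ℕ) : ℝ) / k) atTop
      (𝓝 0) := by
    refine (tendsto_one_div_atTop_nhds_zero_nat (𝕜 := ℝ)).congr' ?_
    filter_upwards [eventually_ge_atTop 1] with k hk
    have : k ≠ 0 := by omega
    simp [this]
  have := cnt_tendsto le_rfl h
  rw [candidate_eq]
  convert this using 2
  norm_num

theorem tendsto_proportion : Tendsto (proportion T) atTop (𝓝 (8 / (8 + α T))) := by
  have hα : 0 ≤ α T := by linarith [two_le_α T]
  have h1 := cnt_tendsto hα (tendsto_α T)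
  rw [← realised_eq] at h1
  have h2 := h1.div tendsto_candidate (by norm_num)
  have e : 1 / (8 * (8 + α T)) / (1 / 64) = 8 / (8 + α T) := by
    have : 8 + α T ≠ 0 := by positivity
    field_simp
    norm_num
  rw [e] at h2
  refine h2.congr' ?_
  filter_upwards [eventually_ge_atTop 1] with N hN
  have hN0 : (N : ℝ) ^ 2 ≠ 0 := by
    have : (0 : ℝ) < N := by exact_mod_cast hN
    positivity
  simp only [Pi.div_apply, proportion]
  rw [div_div_div_cancel_right₀ hN0]

/-- **The density of the realised even forms.** Let `g(k)` be the least `q` such that the form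
`2 k E_8 + q H` is realised. Then:

1. `g(k) / k` tends to a limit `α` with `2 ≤ α ≤ 3`, and `α k ≤ g(k)` for all `k`;
2. the proportion of the realised forms among the indefinite (or zero) forms `2 k E_8 + q H` of
   rank at most `N` tends to `8 / (8 + α)`, a number in `[8/11, 4/5]`;
3. the following are equivalent: the 11/8-conjecture; the proportion tends to `8/11`; for every
   `ε > 0` there are arbitrarily large `k` such that `q ≥ (3 - ε) k` for all realised forms
   `2 k E_8 + q H`;
4. if the 11/8-conjecture fails for a form `2 k₀ E_8 + q₀ H`, then it fails for every `k ≥ k₀`: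
   with `m = ⌊k / k₀⌋`, the form `2 k E_8 + (3 k - m (3 k₀ - q₀)) H` is realised. -/
theorem result :
    (2 ≤ α T ∧ α T ≤ 3 ∧ Tendsto (fun k : ℕ => (g T k : ℝ) / k) atTop (𝓝 (α T)) ∧
      ∀ k : ℕ, α T * k ≤ g T k) ∧
    (Tendsto (proportion T) atTop (𝓝 (8 / (8 + α T))) ∧ 8 / 11 ≤ 8 / (8 + α T) ∧
      8 / (8 + α T) ≤ 4 / 5) ∧
    ((ElevenEighths T ↔ Tendsto (proportion T) atTop (𝓝 (8 / 11))) ∧
      (ElevenEighths T ↔ ∀ ε : ℝ, 0 < ε → ∃ᶠ k : ℕ in atTop, ∀ q : ℕ, Realised T k q →
        (3 - ε) * k ≤ q)) ∧
    (∀ k₀ q₀ : ℕ, Realised T k₀ q₀ → q₀ < 3 * k₀ → ∀ k : ℕ, k₀ ≤ k →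
      (k / k₀) * (3 * k₀ - q₀) ≤ 3 * k ∧ 1 ≤ (k / k₀) * (3 * k₀ - q₀) ∧
      Realised T k (3 * k - (k / k₀) * (3 * k₀ - q₀))) := by
  have h2 := two_le_α T
  have h3 := α_le_three T
  have hpos : 0 < 8 + α T := by linarith
  refine ⟨⟨h2, h3, tendsto_α T, ?_⟩, ⟨tendsto_proportion T, ?_, ?_⟩, ⟨?_, ?_⟩, ?_⟩
  · intro k
    rcases Nat.eq_zero_or_pos k with rfl | hk
    · simp [g_zero]
    · exact α_le T k hk
  · rw [div_le_div_iff₀ (by norm_num) hpos]; linarith
  · rw [div_le_div_iff₀ hpos (by norm_num)]; linarith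
  · rw [eleven_iff]
    constructor
    · intro h
      have := tendsto_proportion T
      rw [h] at this
      norm_num at this ⊢
      exact this
    · intro h
      have h4 := tendsto_nhds_unique h (tendsto_proportion T)
      rw [div_eq_div_iff (by norm_num) hpos.ne'] at h4
      linarith
  · rw [eleven_iff]
    constructor
    · intro h ε hε
      refine Eventually.frequently ?_
      filter_upwards [eventually_ge_atTop 1] with k hk q hq
      have h4 := α_le T k hk
      have h5 : (g T k : ℝ) ≤ q := by exact_mod_cast realised_iff.1 hq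
      have h6 : (0 : ℝ) ≤ ε * k := by positivity
      rw [h] at h4
      linarith
    · intro h
      refine le_antisymm h3 (le_of_forall_pos_le_add fun ε hε => ?_)
      by_contra hcon
      rw [not_le] at hcon
      have h4 : ∀ᶠ k : ℕ in atTop, (g T k : ℝ) / k < 3 - ε :=
        (tendsto_α T).eventually (gt_mem_nhds (by linarith))
      obtain ⟨k, h5, h6, h7⟩ :=
        ((h ε hε).and_eventually (h4.and (eventually_ge_atTop 1))).exists
      have hk0 : (0 : ℝ) < k := by exact_mod_cast h7
      rw [div_lt_iff₀ hk0] at h6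
      linarith [h5 _ (realised_g k)]
  · intro k₀ q₀ h hq k hk
    have hk₀ : 0 < k₀ := by omega
    obtain ⟨m, hm⟩ : ∃ m, m = k / k₀ := ⟨_, rfl⟩
    have hm1 : 1 ≤ m := by
      rw [hm]; exact (Nat.one_le_div_iff hk₀).2 hk
    have hmk : m * k₀ ≤ k := by rw [hm]; exact Nat.div_mul_le_self k k₀
    rw [← hm]
    obtain ⟨d, hd⟩ : ∃ d, d = 3 * k₀ - q₀ := ⟨_, rfl⟩
    rw [← hd]
    have hd1 : 1 ≤ d := by omega
    have hd2 : q₀ + d = 3 * k₀ := by omega
    have h5 : m * q₀ + m * d = 3 * (m * k₀) := by
      rw [← mul_add, hd2]; ring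
    refine ⟨by omega, Nat.mul_pos hm1 hd1, ?_⟩
    have h6 := (realised_smul h m).add (realised_three (T := T) (k - m * k₀))
    rw [Nat.add_sub_cancel' hmk] at h6
    have h7 : m * q₀ + 3 * (k - m * k₀) = 3 * k - m * d := by omega
    rwa [h7] at h6

end

end Pool.Agent.Results.MP_cb9bff_gt.DensityOfEvenForms
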