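import Mathlib
import Pool.Agent.X312.FF.Forms
import Pool.Agent.X27.Geo.Mon

/-!
# Indecomposable even intersection forms

Which of the forms `E(k, q) = 2k E_8 + q H` are intersection forms of closed, simply connected,
smooth 4-manifolds?  (By the theorems of Rokhlin and Donaldson and the classification of indefinite
unimodular forms these are, up to the orientation, all the candidates among the even forms.)
The realised pairs `(k, q)` form a monoid under addition (connected sums). The 11/8-conjecture says
that it is generated by the two elements `(0, 1)` and `(1, 3)` (the forms of `S² × S²` and of the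
K3 surface). We show that the following are equivalent:

* the monoid is finitely generated;
* only finitely many realised forms are indecomposable (not an orthogonal sum of two nonzero
  realised forms `E(k', q')`, `E(k'', q'')`);
* the least slope `q / k` is attained by a manifold.

In this case the least slope is rational and larger than `2` (so Furuta's theorem `q ≥ 2k + 1` is not
asymptotically sharp), the least `q` for `k` is eventually periodic up to a linear function of `k`,
and it is decidable whether an even form is realised. In the other case there are indecomposable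
realised forms `E(k, q)` with `k` arbitrarily large and slopes below every realised slope.
-/

set_option autoImplicit false

namespace Pool.Agent.Results.MP_cb9bff_gt.FiniteGeneration

open Pool.Agent.X312.FF Pool.Agent.X27.Geo Matrix Filter Topology

noncomputable section

/-- The closed, simply connected, oriented smooth 4-manifolds: `M` is the class of these manifolds,
`b X` is the second Betti number of `X` and `Q X` the Gram matrix of the intersection form on
`H²(X, ℤ)` in some basis. The fields record known theorems. -/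
structure Smooth4 where
  M : Type
  b : M → ℕ
  Q : ∀ X : M, Matrix (Fin (b X)) (Fin (b X)) ℤ
  /-- the sphere `S⁴` -/
  sphere : ∃ X : M, b X = 0
  /-- `S² × S²` -/
  prod : ∃ X : M, Iso (Q X) Hyp
  /-- the K3 surface with the orientation opposite to the complex one: the form is `2 E_8 + 3 H` -/
  k3 : ∃ X : M, Iso (Q X) (Ev (Fin 2) (Fin 3))
  /-- connected sums -/
  csum : ∀ X Y : M, ∃ Z : M, Iso (Q Z) (fromBlocks (Q X) 0 0 (Q Y))
  /-- Furuta's 10/8-theorem: if the form of `X` is `2 k E_8 + q H` and `k ≥ 1`,
  then `q ≥ 2 k + 1` -/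
  furuta : ∀ (X : M) (k q : ℕ), 1 ≤ k → Iso (Q X) (Ev (Fin (2 * k)) (Fin q)) → 2 * k + 1 ≤ q

variable (T : Smooth4)

/-- The form `2 k E_8 + q H` is realised. -/
def Realised (k q : ℕ) : Prop := ∃ X : T.M, Iso (T.Q X) (Ev (Fin (2 * k)) (Fin q))

/-- The form `2 k E_8 + q H` is realised, not zero, and it is not the sum of two nonzero realised
forms `2 k' E_8 + q' H` and `2 k'' E_8 + q'' H`. -/
def Indecomposable (k q : ℕ) : Prop :=
  Realised T k q ∧ (k, q) ≠ (0, 0) ∧ ∀ k' q' k'' q'' : ℕ, Realised T k' q' → Realised T k'' q'' →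
    (k', q') ≠ (0, 0) → (k'', q'') ≠ (0, 0) → (k' + k'', q' + q'') ≠ (k, q)

/-- The 11/8-conjecture. -/
def ElevenEighths : Prop := ∀ k q : ℕ, Realised T k q → 3 * k ≤ q

/-- The least slope is attained by a manifold with the form `2 k₀ E_8 + q₀ H`. -/
def LeastSlope (k₀ q₀ : ℕ) : Prop :=
  1 ≤ k₀ ∧ Realised T k₀ q₀ ∧ ∀ k q : ℕ, Realised T k q → q₀ * k ≤ q * k₀

variable {T}

theorem Realised.add {k q k' q' : ℕ} (h : Realised T k q) (h' : Realised T k' q') :
    Realised T (k + k') (q + q') := by
  obtain ⟨X, hX⟩ := h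
  obtain ⟨Y, hY⟩ := h'
  obtain ⟨Z, hZ⟩ := T.csum X Y
  refine ⟨Z, (hZ.trans (hX.sum hY)).trans (Ev_sum.trans (Ev_congr ?_ finSumFinEquiv))⟩
  exact finSumFinEquiv.trans (finCongr (by ring))

theorem realised_zero : Realised T 0 0 := by
  obtain ⟨X, hX⟩ := T.sphere
  exact ⟨X, zero_iso hX _⟩

theorem realised_hyp : Realised T 0 1 := by
  obtain ⟨X, hX⟩ := T.prod
  exact ⟨X, hX.trans Hyp_iso⟩

theorem realised_k3 : Realised T 1 3 := by
  obtain ⟨X, hX⟩ := T.k3
  exact ⟨X, hX⟩

theorem realised_smul {k q : ℕ} (h : Realised T k q) (n : ℕ) : Realised T (n * k) (n * q) := by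
  induction n with
  | zero => simpa using realised_zero
  | succ n ih =>
    have := ih.add h
    rwa [← Nat.succ_mul, ← Nat.succ_mul] at this

theorem realised_up {k q q' : ℕ} (h : Realised T k q) (hq : q ≤ q') : Realised T k q' := by
  have := h.add (realised_smul realised_hyp (q' - q))
  rw [mul_zero, mul_one, add_zero] at this
  rwa [Nat.add_sub_cancel' hq] at this

theorem realised_three (k : ℕ) : Realised T k (3 * k) := by
  have := realised_smul (T := T) realised_k3 k
  rwa [mul_one, mul_comm k 3] at this

variable (T)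

/-- The realised pairs as a submonoid of `ℕ × ℕ`. -/
def realisedForms : AddSubmonoid (ℕ × ℕ) where
  carrier := {p | Realised T p.1 p.2}
  zero_mem' := realised_zero
  add_mem' := fun ha hb => Realised.add ha hb

/-- The least `q` such that `2 k E_8 + q H` is realised. -/
def g (k : ℕ) : ℕ := sInf {q | Realised T k q}

variable {T}

theorem realised_g (k : ℕ) : Realised T k (g T k) :=
  Nat.sInf_mem (s := {q | Realised T k q}) ⟨3 * k, realised_three k⟩

theorem realised_iff {k q : ℕ} : Realised T k q ↔ g T k ≤ q :=
  ⟨fun h => Nat.sInf_le h, fun h => realised_up (realised_g k) h⟩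

theorem sub_g : Sub (g T) where
  zero := Nat.le_zero.1 (realised_iff.1 realised_zero)
  add := fun j k => realised_iff.1 ((realised_g j).add (realised_g k))
  lo := fun k hk => by
    obtain ⟨X, hX⟩ := realised_g (T := T) k
    exact T.furuta X k _ hk hX
  hi := fun k => realised_iff.1 (realised_three k)

theorem realisedForms_eq : realisedForms T = mon (sub_g (T := T)) := by
  ext p
  exact realised_iff

theorem ind_iff {p : ℕ × ℕ} : Ind (mon (sub_g (T := T))) p ↔ Indecomposable T p.1 p.2 := by
  rw [← realisedForms_eq]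
  constructor
  · rintro ⟨h1, h2, h3⟩
    refine ⟨h1, fun h => h2 h, fun k' q' k'' q'' ha hb ha0 hb0 h => ?_⟩
    exact h3 (k', q') (k'', q'') ha hb ha0 hb0 h.symm
  · rintro ⟨h1, h2, h3⟩
    exact ⟨h1, fun h => h2 h, fun a b ha hb ha0 hb0 h =>
      h3 a.1 a.2 b.1 b.2 ha hb ha0 hb0 h.symm⟩

theorem least_iff {k₀ q₀ : ℕ} : LeastSlope T k₀ q₀ ↔ Att (g T) k₀ ∧ q₀ = g T k₀ := by
  constructor
  · rintro ⟨h1, h2, h3⟩
    have h4 := h3 k₀ _ (realised_g k₀)
    have h5 : q₀ = g T k₀ :=
      le_antisymm (Nat.le_of_mul_le_mul_right h4 h1) (realised_iff.1 h2)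
    exact ⟨⟨h1, fun k => h5 ▸ h3 k _ (realised_g k)⟩, h5⟩
  · rintro ⟨⟨h1, h2⟩, rfl⟩
    exact ⟨h1, realised_g k₀, fun k q h =>
      (h2 k).trans (Nat.mul_le_mul_right _ (realised_iff.1 h))⟩

theorem exists_least_iff : (∃ k₀ q₀, LeastSlope T k₀ q₀) ↔ ∃ k₀, Att (g T) k₀ := by
  constructor
  · rintro ⟨k₀, q₀, h⟩
    exact ⟨k₀, (least_iff.1 h).1⟩
  · rintro ⟨k₀, h⟩
    exact ⟨k₀, g T k₀, least_iff.2 ⟨h, rfl⟩⟩

theorem two_gen {a b : ℕ × ℕ} (h : AddSubmonoid.closure {a, b} = realisedForms T) :
    ElevenEighths T := by
  -- (0, 1) is indecomposable, so it is one of the two generators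
  have key : ∀ a b : ℕ × ℕ, a = (0, 1) → AddSubmonoid.closure {a, b} = realisedForms T →
      ElevenEighths T := by
    rintro a b rfl h
    have hb : b ∈ realisedForms T := by
      rw [← h]; exact AddSubmonoid.subset_closure (by simp)
    have hrep : ∀ p ∈ AddSubmonoid.closure {((0, 1) : ℕ × ℕ), b},
        ∃ m n : ℕ, p.1 = n * b.1 ∧ p.2 = m + n * b.2 := by
      intro p hp
      induction hp using AddSubmonoid.closure_induction with
      | mem x hx =>
        rcases hx with rfl | rfl
        · exact ⟨1, 0, by simp, by simp⟩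
        · exact ⟨0, 1, by simp, by simp⟩
      | zero => exact ⟨0, 0, by simp, by simp⟩
      | add x y _ _ hx hy =>
        obtain ⟨m, n, h1, h2⟩ := hx
        obtain ⟨m', n', h1', h2'⟩ := hy
        refine ⟨m + m', n + n', ?_, ?_⟩
        · simp only [Prod.fst_add, h1, h1']; ring
        · simp only [Prod.snd_add, h2, h2']; ring
    have h13 : ((1, 3) : ℕ × ℕ) ∈ AddSubmonoid.closure {((0, 1) : ℕ × ℕ), b} := by
      rw [h]; exact realised_k3
    obtain ⟨m, n, h1, h2⟩ := hrep _ h13
    simp only at h1 h2
    have hn : n = 1 ∧ b.1 = 1 := by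
      have := Nat.eq_one_of_mul_eq_one_right h1.symm
      rw [this] at h1
      exact ⟨this, by omega⟩
    obtain ⟨rfl, hb1⟩ := hn
    have hb2 : 2 * 1 + 1 ≤ b.2 := by
      have h3 : Realised T b.1 b.2 := hb
      rw [hb1] at h3
      have h4 := realised_iff.1 h3
      have h5 := (sub_g (T := T)).lo 1 le_rfl
      omega
    have hb3 : b.2 = 3 := by omega
    intro k q hkq
    have hmem : ((k, q) : ℕ × ℕ) ∈ AddSubmonoid.closure {((0, 1) : ℕ × ℕ), b} := by
      rw [h]; exact hkq
    obtain ⟨m', n', h5, h6⟩ := hrep _ hmem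
    simp only at h5 h6
    rw [hb1] at h5
    rw [hb3] at h6
    omega
  have h01 : Ind (realisedForms T) (0, 1) := by
    refine ⟨realised_hyp, by simp, fun x y _ _ hx0 hy0 h => ?_⟩
    have e1 : 0 = x.1 + y.1 := congrArg Prod.fst h
    have e2 : 1 = x.2 + y.2 := congrArg Prod.snd h
    have : x.2 = 0 ∨ y.2 = 0 := by omega
    rcases this with h3 | h3
    · exact hx0 (Prod.ext (by simp; omega) (by simp; omega))
    · exact hy0 (Prod.ext (by simp; omega) (by simp; omega))
  have hm := ind_mem_of_closure h h01
  rcases hm with h3 | h3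
  · exact key a b h3.symm h
  · have h4 : b = (0, 1) := by
      rw [Set.mem_singleton_iff] at h3
      exact h3.symm
    exact key b a h4 (by rw [Set.pair_comm]; exact h)

/-- **Indecomposable even intersection forms.** Let `S` be the monoid of the pairs `(k, q)` such that
the form `2 k E_8 + q H` is the intersection form of a closed, simply connected, smooth 4-manifold.

1. The following are equivalent: `S` is finitely generated; there are only finitely many
   indecomposable realised forms `2 k E_8 + q H`; the least slope `q / k` of the realised forms with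
   `k ≥ 1` is attained.
2. Suppose the least slope is attained by the form `2 k₀ E_8 + q₀ H`. Then `q₀ > 2 k₀`; for all large
   `k` and all `q`, the form `(k + k₀, q + q₀)` is realised if and only if `(k, q)` is; and it is
   decidable (even primitive recursive) whether `2 k E_8 + q H` is realised.
3. Suppose the least slope is not attained. Then for each realised form `2 k E_8 + q H` with `k ≥ 1`
   and every `N` there is an indecomposable realised form `2 k' E_8 + q' H` with `k' ≥ N` and
   `q' / k' < q / k`.
4. The 11/8-conjecture is equivalent to: `S` is generated by `(0, 1)` and `(1, 3)`; `S` is generated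
   by two elements; the only indecomposable realised forms are `H` and `2 E_8 + 3 H`. -/
theorem result :
    ((realisedForms T).FG ↔ {p : ℕ × ℕ | Indecomposable T p.1 p.2}.Finite) ∧
    ((realisedForms T).FG ↔ ∃ k₀ q₀ : ℕ, LeastSlope T k₀ q₀) ∧
    (∀ k₀ q₀ : ℕ, LeastSlope T k₀ q₀ → 2 * k₀ < q₀ ∧
      (∃ K : ℕ, ∀ k, K ≤ k → ∀ q, Realised T (k + k₀) (q + q₀) ↔ Realised T k q) ∧
      PrimrecPred fun p : ℕ × ℕ => Realised T p.1 p.2) ∧
    ((¬ ∃ k₀ q₀ : ℕ, LeastSlope T k₀ q₀) → ∀ k q : ℕ, 1 ≤ k → Realised T k q → ∀ N : ℕ,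
      ∃ k' q' : ℕ, Indecomposable T k' q' ∧ N ≤ k' ∧ q' * k < q * k') ∧
    ((ElevenEighths T ↔ realisedForms T = AddSubmonoid.closure {(0, 1), (1, 3)}) ∧
      (ElevenEighths T ↔ ∃ a b : ℕ × ℕ, realisedForms T = AddSubmonoid.closure {a, b}) ∧
      (ElevenEighths T ↔ ∀ k q : ℕ, Indecomposable T k q → (k, q) = (0, 1) ∨ (k, q) = (1, 3))) := by
  have hind : {p : ℕ × ℕ | Indecomposable T p.1 p.2} = {p | Ind (mon (sub_g (T := T))) p} := by
    ext p
    exact ind_iff.symm
  have h118 : ElevenEighths T → realisedForms T = AddSubmonoid.closure {(0, 1), (1, 3)} := by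
    intro h
    apply le_antisymm
    · intro p hp
      have h1 : 3 * p.1 ≤ p.2 := h p.1 p.2 hp
      have e : p = p.1 • ((1, 3) : ℕ × ℕ) + (p.2 - 3 * p.1) • ((0, 1) : ℕ × ℕ) := by
        refine Prod.ext ?_ ?_
        · simp
        · simp only [Prod.snd_add, Prod.smul_snd, smul_eq_mul, mul_one]
          omega
      rw [e]
      exact AddSubmonoid.add_mem _
        (AddSubmonoid.nsmul_mem _ (AddSubmonoid.subset_closure (by simp)) _)
        (AddSubmonoid.nsmul_mem _ (AddSubmonoid.subset_closure (by simp)) _)
    · rw [AddSubmonoid.closure_le]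
      rintro p (rfl | rfl)
      · exact realised_hyp
      · exact realised_k3
  refine ⟨?_, ?_, ?_, ?_, ?_, ?_, ?_⟩
  · rw [hind, realisedForms_eq]
    exact fg_iff_finite_ind _
  · rw [realisedForms_eq, exists_least_iff]
    exact ⟨fun h => att_of_fg _ h, fun ⟨k₀, h⟩ => h.fg _⟩
  · intro k₀ q₀ h
    obtain ⟨h1, rfl⟩ := least_iff.1 h
    obtain ⟨K, hK⟩ := h1.periodic sub_g
    refine ⟨?_, ⟨K, fun k hk q => ?_⟩, ?_⟩
    · have := (sub_g (T := T)).lo k₀ h1.1
      omega
    · rw [realised_iff, realised_iff, hK k hk]
      omega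
    · have h2 := computable_of_periodic h1.1 hK
      exact h2.of_eq fun p => realised_iff.symm
  · intro hn k q hk hkq N
    rw [exists_least_iff] at hn
    obtain ⟨p, h1, h2, h3⟩ := many_ind sub_g hn hk (realised_iff.1 hkq) N
    exact ⟨p.1, p.2, ind_iff.1 h1, h2, h3⟩
  · refine ⟨h118, fun h => two_gen h.symm⟩
  · refine ⟨fun h => ⟨_, _, h118 h⟩, fun ⟨a, b, h⟩ => two_gen h.symm⟩
  · constructor
    · intro h k q hkq
      have h1 : Ind (realisedForms T) (k, q) := by
        rw [realisedForms_eq]; exact ind_iff.2 hkq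
      have h2 := ind_mem_of_closure (h118 h).symm h1
      simpa using h2
    · intro h
      apply two_gen (a := (0, 1)) (b := (1, 3))
      apply le_antisymm
      · rw [AddSubmonoid.closure_le]
        rintro p (rfl | rfl)
        · exact realised_hyp
        · exact realised_k3
      · have h1 := closure_ind (realisedForms T)
        rw [← h1]
        apply AddSubmonoid.closure_mono
        intro p hp
        have h2 : Indecomposable T p.1 p.2 := by
          apply ind_iff.1
          rw [← realisedForms_eq]
          exact hp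
        rcases h p.1 p.2 h2 with h3 | h3
        · left; exact h3
        · right; exact h3

end

end Pool.Agent.Results.MP_cb9bff_gt.FiniteGeneration
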