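import Pool.Agent.X175.SH.MB8

/-!
# Homeomorphisms with small singular sets and punctured manifolds

Let `M` and `N` be closed connected smooth manifolds of the same dimension, for instance two simply
connected 4-manifolds with the same intersection form. We show that the following are equivalent:

* `M` minus a point and `N` minus a point are diffeomorphic;
* there is a `C^∞` homeomorphism `M → N` with at most one critical point;
* there is a homeomorphism `g : M → N` which is a local diffeomorphism off `g⁻¹(C)` for a closed set `C`
  of one-dimensional Hausdorff measure zero; `g` is only assumed continuous over `C`;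
* there is a `C^∞` homeomorphism `M → N` whose critical values lie in a ball in an open subset
  diffeomorphic to `ℝ^n`.

So homeomorphisms of exotic pairs whose punctured manifolds are not diffeomorphic must have large
singular sets. There are more general statements, for maps with nontrivial fibres and with control.

Outline of the proof. Over a ball whose boundary is regular the theorem of Sard and an induction on the
dimension show that all compact subsets of the preimage embed in `ℝ^n` (grid of walls, Palais' theorem).
So the preimage `K` of the ball is a compact domain in `ℝ^n` bounded by a collared sphere. We prove the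
theorem of Mazur and Brown for such domains: by the infinite swindle `K` has arbitrarily small
neighbourhoods which are open cells, these engulf the complement, an infinite sequence of extensions
gives a diffeomorphism of the complement of the ball to the complement of `K`, and an inversion gives a
homeomorphism of the ball to `K`, regular off one point and extending the given collar. A singular set of
one-dimensional measure zero is treated in finitely many balls with regular boundaries, the finitely many
singular points which remain are contained in one cell, and a last step leaves one point. Finally the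
homeomorphism is composed with a radial homeomorphism which is flat at the point fast enough.
-/

set_option autoImplicit false

open Set Filter Topology Metric Function MeasureTheory
open scoped Manifold ContDiff

noncomputable section

namespace Pool.Agent.Results.MP_cb9bff_gt.SingularSetsInBalls

/-- Euclidean space -/
abbrev Rn (n : ℕ) : Type := EuclideanSpace ℝ (Fin n)

/-- In each interval `(a, b)` the values which the `i`-th coordinate does not take on `B` have positive
measure, and in each interval `(r₀, ∞)` the values which the norm does not take on `B` have positive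
measure. -/
def Thin {n : ℕ} (B : Set (Rn n)) : Prop :=
  (∀ i (a b : ℝ), a < b → volume {c : ℝ | a < c ∧ c < b ∧ ∀ y ∈ B, y i ≠ c} ≠ 0) ∧
  ∀ r₀ : ℝ, volume {r : ℝ | r₀ < r ∧ ∀ y ∈ B, ‖y‖ ≠ r} ≠ 0

/-- `M` is a smooth manifold of dimension `n`. -/
def Smooth (n : ℕ) (M : Type) [TopologicalSpace M] [ChartedSpace (Rn n) M] : Prop :=
  IsManifold (𝓡 n) ∞ M

section defs

variable {n : ℕ} {M N : Type} [TopologicalSpace M] [ChartedSpace (Rn n) M]
    [TopologicalSpace N] [ChartedSpace (Rn n) N]

variable (n) in
/-- `f` is `C^∞` at `x`. -/
def SmoothAt (f : M → N) (x : M) : Prop := ContMDiffAt (𝓡 n) (𝓡 n) ∞ f x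

variable (n) in
/-- `f` is a local diffeomorphism at `x`. -/
def LocDiff (f : M → N) (x : M) : Prop := IsLocalDiffeomorphAt (𝓡 n) (𝓡 n) ∞ f x

/-- `c` is a diffeomorphism of `ℝ^n` onto an open subset of `N`. -/
def Cell (c : Rn n → N) : Prop := Injective c ∧ ∀ y, LocDiff n c y

variable (n) in
/-- `C` has one-dimensional Hausdorff measure zero in all cells. -/
def Null (C : Set N) : Prop := ∀ c : Rn n → N, Cell c → μH[1] (c ⁻¹' C) = 0

variable (n) in
/-- A neighbourhood of `K` embeds smoothly in `ℝ^n`. -/
def EmbedsNear (K : Set M) : Prop :=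
  ∃ (U : Set M) (k : M → Rn n), IsOpen U ∧ K ⊆ U ∧ InjOn k U ∧ ∀ x ∈ U, LocDiff n k x

variable (n) in
/-- `g` is a proper surjective map and `C` is a compact set of one-dimensional measure zero, such that
`g` is injective and a local diffeomorphism off the preimage of `C`, and the fibres over `C` have
neighbourhoods which embed smoothly in `ℝ^n`. -/
structure SmallSing (g : M → N) (C : Set N) : Prop where
  proper : IsProperMap g
  surj : Surjective g
  compact : IsCompact C
  null : Null n C
  inj : ∀ x y, g x ∉ C → g x = g y → x = y
  regular : ∀ x, g x ∉ C → LocDiff n g x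
  fibre : ∀ z ∈ C, EmbedsNear n (g ⁻¹' {z})

/-- `g` is a proper surjective map, `c` is a cell, `B` is a closed thin subset of the open unit ball,
such that `g` is injective off the preimage of `c(B)`, `C^∞` there over the cell, and a local
diffeomorphism off the preimage of `c(ball 0 1)`, and the fibres over `c(B)` have neighbourhoods which
embed smoothly in `ℝ^n`. -/
structure BallSing (g : M → N) (c : Rn n → N) (B : Set (Rn n)) : Prop where
  proper : IsProperMap g
  surj : Surjective g
  cell : Cell c
  closed : IsClosed B
  sub : B ⊆ ball 0 1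
  thin : Thin B
  inj : ∀ x y, g x ∉ c '' B → g x = g y → x = y
  smooth : ∀ x, g x ∈ range c → g x ∉ c '' B → SmoothAt n g x
  fibre : ∀ y ∈ B, EmbedsNear n (g ⁻¹' {c y})
  regular : ∀ x, g x ∉ c '' ball 0 1 → LocDiff n g x

variable (n) in
/-- `G` is a `C^∞` homeomorphism, and a local diffeomorphism off at most one point. -/
def OneCrit (G : M → N) : Prop :=
  IsHomeomorph G ∧ (∀ x, SmoothAt n G x) ∧ ∃ x₀, ∀ x, x ≠ x₀ → LocDiff n G x

variable (n M N) in
/-- There is a homeomorphism `g` of `M` onto `N` and a closed subset `C` of `N` of one-dimensional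
measure zero, such that `g` is a local diffeomorphism off the preimage of `C`. -/
def NullHomeo : Prop :=
  ∃ (g : M → N) (C : Set N), IsHomeomorph g ∧ IsClosed C ∧ Null n C ∧
    ∀ x, g x ∉ C → LocDiff n g x

variable (n M N) in
/-- There is a `C^∞` homeomorphism `g` of `M` onto `N` and a cell `c` in `N`, such that `g` is a local
diffeomorphism at all points which are not mapped to `c(ball 0 1)`. -/
def BallHomeo : Prop :=
  ∃ (g : M → N) (c : Rn n → N), IsHomeomorph g ∧ Cell c ∧ (∀ x, SmoothAt n g x) ∧
    ∀ x, g x ∉ c '' ball 0 1 → LocDiff n g x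

end defs

section punctured

/-- the open submanifold of the points different from `p` -/
def minus {M : Type} [TopologicalSpace M] [T2Space M] (p : M) : TopologicalSpace.Opens M :=
  ⟨{p}ᶜ, isOpen_compl_singleton⟩

variable (n : ℕ) (M N : Type) [TopologicalSpace M] [T2Space M] [ChartedSpace (Rn n) M]
    [TopologicalSpace N] [T2Space N] [ChartedSpace (Rn n) N]

/-- `M` minus a point and `N` minus a point are diffeomorphic. -/
def PuncturedDiffeo : Prop :=
  ∃ (p : M) (q : N), Nonempty (Diffeomorph (𝓡 n) (𝓡 n) (minus p) (minus q) ∞)

end punctured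

/-- Let `M` and `N` be Hausdorff smooth manifolds of dimension `n = m + 1`.

(1) Let `N` be connected and let `g : M → N` and `C ⊆ N` be as in `SmallSing`. Then there is a `C^∞`
homeomorphism of `M` onto `N` with at most one critical point.

(2) Let `g : M → N`, `c : ℝ^n → N` and `B` be as in `BallSing`. Then there is a `C^∞` homeomorphism of
`M` onto `N` with at most one critical point which agrees with `g` at all points which `g` does not map
to `c(ball 0 1)`.

(3) Let `M` and `N` be compact and let `N` be connected. Then the following are equivalent: `M` minus a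
point is diffeomorphic to `N` minus a point; there is a `C^∞` homeomorphism of `M` onto `N` with at most
one critical point; there is a homeomorphism of `M` onto `N` which is a local diffeomorphism off the
preimage of a closed set of one-dimensional measure zero; there is a `C^∞` homeomorphism of `M` onto
`N` whose critical values lie in a ball. -/
theorem result (m : ℕ) (M N : Type) [TopologicalSpace M] [T2Space M]
    [ChartedSpace (Rn (m + 1)) M] [TopologicalSpace N] [T2Space N]
    [ChartedSpace (Rn (m + 1)) N] (hM : Smooth (m + 1) M) (hN : Smooth (m + 1) N) :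
    (ConnectedSpace N → ∀ (g : M → N) (C : Set N), SmallSing (m + 1) g C →
      ∃ G : M → N, OneCrit (m + 1) G) ∧
    (∀ (g : M → N) (c : Rn (m + 1) → N) (B : Set (Rn (m + 1))), BallSing g c B →
      ∃ G : M → N, OneCrit (m + 1) G ∧ ∀ x, g x ∉ c '' ball 0 1 → G x = g x) ∧
    (CompactSpace M → CompactSpace N → ConnectedSpace N →
      List.TFAE [PuncturedDiffeo (m + 1) M N, ∃ G : M → N, OneCrit (m + 1) G,
        NullHomeo (m + 1) M N, BallHomeo (m + 1) M N]) := by
  have : IsManifold (𝓡 (m + 1)) ∞ M := hM
  have : IsManifold (𝓡 (m + 1)) ∞ N := hN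
  have h1 : ConnectedSpace N → ∀ (g : M → N) (C : Set N), SmallSing (m + 1) g C →
      ∃ G : M → N, OneCrit (m + 1) G := by
    intro _ g C h
    obtain ⟨G, x₀, hG1, hG2⟩ := Pool.Agent.X175.SH.null_final (g := g) (C := C)
      ⟨h.proper, h.surj, h.compact.isClosed, fun c hc => h.null c ⟨hc.inj, hc.ld⟩, h.inj, h.regular,
        h.fibre⟩ h.compact
    exact ⟨G, G.isHomeomorph, hG2, x₀, hG1⟩
  have h2 : ∀ (g : M → N) (c : Rn (m + 1) → N) (B : Set (Rn (m + 1))), BallSing g c B →
      ∃ G : M → N, OneCrit (m + 1) G ∧ ∀ x, g x ∉ c '' ball 0 1 → G x = g x := by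
    intro g c B h
    obtain ⟨G, x₀, hG0, hG1, hG2⟩ := Pool.Agent.X175.SH.cell_final g h.proper h.surj
      ⟨h.cell.1, h.cell.2⟩ B h.closed h.sub h.thin h.inj h.smooth h.fibre h.regular
    exact ⟨G, ⟨G.isHomeomorph, hG2, x₀, hG1⟩, hG0⟩
  have hnull0 : Pool.Agent.X175.SH.NullM (m + 1) (∅ : Set N) := fun c _ => by
    rw [preimage_empty]
    exact measure_empty
  refine ⟨h1, h2, fun _ _ _ => ?_⟩
  tfae_have 1 → 2 := by
    rintro ⟨p, q, ⟨Φ⟩⟩
    obtain ⟨G, hG⟩ := Pool.Agent.X175.SH.one_of_punct (n := m + 1) (p := p) (q := q) Φ
    obtain ⟨G', -, hG1, hG2⟩ := Pool.Agent.X175.SH.smooth_of_LD G p hG (V := univ) univ_mem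
    exact ⟨G', G'.isHomeomorph, hG2, p, hG1⟩
  tfae_have 2 → 1 := by
    rintro ⟨G, hG, -, x₀, hG1⟩
    exact ⟨x₀, G x₀, Pool.Agent.X175.SH.punct_of_one (hG.homeomorph) x₀ hG1⟩
  tfae_have 2 → 3 := by
    rintro ⟨G, hG, -, x₀, hG1⟩
    refine ⟨G, {G x₀}, hG, isClosed_singleton, ?_, fun x hx => hG1 x fun h => hx (by rw [h]; rfl)⟩
    intro c hc
    have h3 := hnull0.union_finite (finite_singleton (G x₀)) c ⟨hc.1, hc.2⟩
    rwa [empty_union] at h3
  tfae_have 3 → 2 := by
    rintro ⟨g, C, hg, hC, hCn, hgC⟩
    refine h1 inferInstance g C ⟨?_, hg.surjective, hC.isCompact, hCn,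
      fun x y _ hxy => hg.injective hxy, hgC, fun z _ => ?_⟩
    · exact (hg.homeomorph).isProperMap
    · obtain ⟨x, rfl⟩ := hg.surjective z
      have h3 : g ⁻¹' {g x} = {x} := by
        ext y
        exact ⟨fun h => hg.injective h, fun h => congrArg g h⟩
      rw [h3]
      exact Pool.Agent.X175.SH.emb_singleton x
  tfae_have 2 → 4 := by
    rintro ⟨G, hG, hG2, x₀, hG1⟩
    obtain ⟨c, hc, hc0, -⟩ := Pool.Agent.X175.SH.exists_cell (n := m + 1) (G x₀)
      (V := univ) univ_mem
    refine ⟨G, c, hG, ⟨hc.inj, hc.ld⟩, hG2, fun x hx => hG1 x fun h => hx ?_⟩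
    exact ⟨0, mem_ball_self one_pos, by rw [hc0, h]⟩
  tfae_have 4 → 2 := by
    rintro ⟨g, c, hg, hc, hgs, hgc⟩
    obtain ⟨G, hG, -⟩ := h2 g c ∅ ⟨(hg.homeomorph).isProperMap, hg.surjective, hc, isClosed_empty,
      empty_subset _, Pool.Agent.X175.SH.thin_of_null measure_empty,
      fun x y _ hxy => hg.injective hxy, fun x _ _ => hgs x, fun y hy => hy.elim, hgc⟩
    exact ⟨G, hG⟩
  tfae_finish

end Pool.Agent.Results.MP_cb9bff_gt.SingularSetsInBalls
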